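import Pool.Agent.Q151.King.Three

/-!
# MP_abcfaf_gt, Q1: locally compact king spaces are compact
-/

set_option autoImplicit false

namespace Pool.Agent.Results.MP_abcfaf_gt.KingCompact

open Pool.Agent.Q151.King Set Topology

/-- `φ` is a weak selection on `X`, written as a symmetric function of two variables:
`φ a b` is the point selected from `{a, b}` (so `φ a a = a`). -/
structure IsWeakSelection {X : Type*} (φ : X → X → X) : Prop where
  mem : ∀ a b, φ a b = a ∨ φ a b = b
  symm : ∀ a b, φ a b = φ b a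

/-- continuity of a weak selection -/
def IsContinuous {X : Type*} [TopologicalSpace X] (φ : X → X → X) : Prop :=
  ∀ a b, a ≠ b → ∀ W : Set X, IsOpen W → φ a b ∈ W →
    ∃ U V : Set X, IsOpen U ∧ IsOpen V ∧ a ∈ U ∧ b ∈ V ∧
      ∀ a' ∈ U, ∀ b' ∈ V, a' ≠ b' → φ a' b' ∈ W

/-- `a →_φ b` -/
def Arrow {X : Type*} (φ : X → X → X) (a b : X) : Prop := a = b ∨ (a ≠ b ∧ φ a b = b)

/-- `z` is a `φ`-king -/
def IsKing {X : Type*} (φ : X → X → X) (z : X) : Prop :=
  ∀ x, ∃ y, Arrow φ z y ∧ Arrow φ y x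

/-- king spaces: every continuous weak selection has a king -/
def KingSpace (X : Type*) [TopologicalSpace X] : Prop :=
  ∀ φ : X → X → X, IsWeakSelection φ → IsContinuous φ → ∃ z, IsKing φ z

variable {X : Type*} [TopologicalSpace X] [T2Space X]

lemma exists_cws {φ : X → X → X} (h : IsWeakSelection φ) (hc : IsContinuous φ) :
    Nonempty (CWS X) := by
  refine ⟨{ lt := fun a b => a ≠ b ∧ φ a b = a, irrefl := ?_, asymm := ?_, total := ?_,
            op := ?_ }⟩
  · intro a h
    exact h.1 rfl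
  · rintro a b ⟨h1, h2⟩ ⟨_, h3⟩
    rw [h.symm, h3] at h2
    exact h1 h2.symm
  · intro a b hab
    rcases h.mem a b with h1 | h1
    · exact Or.inl ⟨hab, h1⟩
    · exact Or.inr ⟨hab.symm, by rw [h.symm]; exact h1⟩
  · rw [isOpen_iff_mem_nhds]
    rintro ⟨a, b⟩ ⟨hab, hφ⟩
    obtain ⟨W1, W2, hW1, hW2, ha, hb, hd⟩ := t2_separation hab
    simp only at hφ hab
    obtain ⟨U, V, hU, hV, haU, hbV, hUV⟩ := hc a b hab W1 hW1 (by rw [hφ]; exact ha)
    have h1 : (U ∩ W1) ×ˢ (V ∩ W2) ∈ 𝓝 (a, b) :=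
      prod_mem_nhds ((hU.inter hW1).mem_nhds ⟨haU, ha⟩) ((hV.inter hW2).mem_nhds ⟨hbV, hb⟩)
    filter_upwards [h1]
    rintro ⟨a', b'⟩ ⟨⟨h2, h3⟩, h4, h5⟩
    have hne : a' ≠ b' := by
      rintro h6
      simp only at h2 h3 h4 h5
      exact disjoint_left.mp hd h3 (h6 ▸ h5)
    refine ⟨hne, ?_⟩
    have h6 := hUV a' h2 b' h4 hne
    rcases h.mem a' b' with h7 | h7
    · exact h7
    · exfalso
      rw [h7] at h6
      exact disjoint_left.mp hd h6 h5

omit [T2Space X] in
lemma not_king {r : CWS X} (hr : Kingless r) : ¬ KingSpace X := by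
  classical
  intro hX
  have hlt : ∀ a b, r.lt a b → (if r.lt a b then a else b) = a := fun a b h => if_pos h
  have hnlt : ∀ a b, r.lt b a → (if r.lt a b then a else b) = b := fun a b h =>
    if_neg (r.asymm _ _ h)
  have hw : IsWeakSelection (fun a b : X => if r.lt a b then a else b) := by
    refine ⟨?_, ?_⟩
    · intro a b
      by_cases h : r.lt a b
      · left; simp [h]
      · right; simp [h]
    · intro a b
      by_cases hab : a = b
      · subst hab; rfl
      · rcases r.total a b hab with h | h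
        · simp only [hlt a b h, hnlt b a h]
        · simp only [hlt b a h, hnlt a b h]
  have hcont : IsContinuous (fun a b : X => if r.lt a b then a else b) := by
    intro a b hab W hW hφ
    rcases r.total a b hab with h | h
    · simp only [hlt a b h] at hφ
      have h1 : {p : X × X | r.lt p.1 p.2} ∈ 𝓝 (a, b) := r.op.mem_nhds h
      obtain ⟨U, V, hU, haU, hV, hbV, hsub⟩ := mem_nhds_prod_iff'.mp h1
      refine ⟨U ∩ W, V, hU.inter hW, hV, ⟨haU, hφ⟩, hbV, ?_⟩
      intro a' ha' b' hb' _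
      have h2 : r.lt a' b' := hsub (⟨ha'.1, hb'⟩ : (a', b') ∈ U ×ˢ V)
      simp only [hlt a' b' h2]
      exact ha'.2
    · simp only [hnlt a b h] at hφ
      have h1 : {p : X × X | r.lt p.1 p.2} ∈ 𝓝 (b, a) := r.op.mem_nhds h
      obtain ⟨V, U, hV, hbV, hU, haU, hsub⟩ := mem_nhds_prod_iff'.mp h1
      refine ⟨U, V ∩ W, hU, hV.inter hW, haU, ⟨hbV, hφ⟩, ?_⟩
      intro a' ha' b' hb' _
      have h2 : r.lt b' a' := hsub (⟨hb'.1, ha'⟩ : (b', a') ∈ V ×ˢ U)
      simp only [hnlt a' b' h2]
      exact hb'.2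
  obtain ⟨z, hz⟩ := hX _ hw hcont
  obtain ⟨x, hx⟩ := hr z
  obtain ⟨y, hy1, hy2⟩ := hz x
  have h1 : y = z ∨ r.lt y z := by
    rcases hy1 with h | ⟨h, h'⟩
    · exact Or.inl h.symm
    · right
      rcases r.total z y h with h2 | h2
      · simp only [hlt z y h2] at h'
        exact absurd h' h
      · exact h2
  have h2 := hx y h1
  rcases hy2 with h | ⟨h, h'⟩
  · subst h
    exact r.irrefl _ h2
  · simp only [hlt y x h2] at h'
    exact h h'

/-- Every locally compact Hausdorff king space admitting at least one continuous weak selection is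
compact. -/
theorem result : ∀ (X : Type*) [TopologicalSpace X] [T2Space X] [LocallyCompactSpace X],
    (∃ φ : X → X → X, IsWeakSelection φ ∧ IsContinuous φ) → KingSpace X → CompactSpace X := by
  intro X _ _ _ ⟨φ, hφ, hc⟩ hX
  by_contra hnc
  obtain ⟨r⟩ := exists_cws hφ hc
  obtain ⟨r', hr'⟩ := main r hnc
  exact not_king hr' hX

end Pool.Agent.Results.MP_abcfaf_gt.KingCompact
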